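import Pool.Agent.Work.MP_8625e1_nt.Final

/-! The Jameson-Ono sum modulo `p ^ 2`. -/

namespace Pool.Agent.Results.MP_8625e1_nt.ExactOrder

open Finset

theorem result (p : ℕ) (hp : p.Prime) (h3 : 3 < p) (S : ℚ) (D : ℤ)
    (hS : S = ∑ k ∈ range ((p - 1) / 2 + 1),
      ((2 * k).choose k : ℚ) ^ 3 * ∑ j ∈ Ioc k (2 * k), 1 / (j : ℚ))
    (hD : D = ∑ k ∈ range ((p - 1) / 2 + 1), (k : ℤ) ^ 2 * ((2 * k).choose k : ℤ) ^ 3) :
    ¬ p ∣ S.den ∧ ∃ c : ℤ, (p : ℤ) ^ 2 ∣ S.num - p * c * S.den ∧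
      (p % 7 = 0 ∨ p % 7 = 1 ∨ p % 7 = 2 ∨ p % 7 = 4 → c = 0) ∧
      (p % 7 = 3 ∨ p % 7 = 5 ∨ p % 7 = 6 → (p : ℤ) ∣ 27 * c * D - 4) := by
  by_cases h7 : p = 7
  · subst h7
    have : S = 15190 / 3 := by
      rw [hS]
      simp only [Pool.Agent.Work.MP_8625e1_nt.sum_Ioc_eq _ (Nat.le_mul_of_pos_left _ two_pos)]
      norm_num [sum_range_succ, Nat.choose]
    rw [this]
    exact ⟨by norm_num, 0, by norm_num, fun _ => rfl, by norm_num⟩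
  have := Fact.mk hp
  obtain ⟨h1, h2, h4⟩ := Pool.Agent.Work.MP_8625e1_nt.main h3 h7 S _ D hS rfl hD
  have h0 : p % 7 ≠ 0 := fun h =>
    h7 ((Nat.prime_dvd_prime_iff_eq (by norm_num) hp).1 (Nat.dvd_of_mod_eq_zero h)).symm
  by_cases h : p % 7 = 1 ∨ p % 7 = 2 ∨ p % 7 = 4
  · exact ⟨h1, 0, by simpa using h2 h, fun _ => rfl, fun _ => by omega⟩
  · obtain ⟨⟨m, hm⟩, ⟨r, hr⟩, -⟩ := h4 (by omega)
    obtain ⟨a, b, hab⟩ := Nat.isCoprime_iff_coprime.2 (hp.coprime_iff_not_dvd.2 h1)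
    have h5 : 27 * m * D - 4 * S.den = p * r :=
      mul_left_cancel₀ (by exact_mod_cast hp.ne_zero : (p : ℤ) ≠ 0)
        (by linear_combination hr - 27 * D * hm)
    exact ⟨h1, m * b, ⟨m * a, by linear_combination hm - p * m * hab⟩, fun _ => by omega,
      fun _ => ⟨b * r - 4 * a, by linear_combination b * h5 + 4 * hab⟩⟩

end Pool.Agent.Results.MP_8625e1_nt.ExactOrder
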